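import Mathlib
import Pool.Agent.Q155.FibSeq

/-!
`b(62) = 8` but `b(57,62) = 10`.
-/

set_option autoImplicit false

namespace Pool.Agent.Results.MP_8dcfbf_co.PairNeedsTwoMore

open Q155.FibSeq

/-- Regular type B sequences, with the one-term sequence `(1)` included. -/
def RegB1 (d : List ℕ) : Prop := d = [1] ∨ RegB d

theorem regB_single : RegB [62, 31, 15, 8, 4, 2, 1, 1] := by
  have h3 : RegB [2, 1, 1] := RegB.left [] [1, 1] [] RegB.base (by simp)
  have h4 : RegB [4, 2, 1, 1] := RegB.left [] [2, 1, 1] [] h3 (by simp)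
  have h5 : RegB [8, 4, 2, 1, 1] := RegB.left [] [4, 2, 1, 1] [] h4 (by simp)
  have h6 : RegB [15, 8, 4, 2, 1, 1] := RegB.left [] [8, 4, 2, 1] [1] h5 (by simp)
  have h7 : RegB [31, 15, 8, 4, 2, 1, 1] := RegB.left [] [15, 8, 4, 2, 1, 1] [] h6 (by simp)
  exact RegB.left [] [31, 15, 8, 4, 2, 1, 1] [] h7 (by simp)

theorem regB_pair : RegB [62, 57, 4, 1, 1, 1, 1, 8, 16, 25] := by
  have h3 : RegB [1, 1, 1] := RegB.right [1] [1] [] RegB.base (by simp)
  have h4 : RegB [1, 1, 1, 1] := RegB.right [1, 1] [1] [] h3 (by simp)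
  have h5 : RegB [4, 1, 1, 1, 1] := RegB.left [] [1, 1, 1, 1] [] h4 (by simp)
  have h6 : RegB [4, 1, 1, 1, 1, 8] := RegB.right [] [4, 1, 1, 1, 1] [] h5 (by simp)
  have h7 : RegB [4, 1, 1, 1, 1, 8, 16] := RegB.right [] [4, 1, 1, 1, 1, 8] [] h6 (by simp)
  have h8 : RegB [4, 1, 1, 1, 1, 8, 16, 25] := RegB.right [4, 1, 1, 1] [1, 8, 16] [] h7 (by simp)
  have h9 : RegB [57, 4, 1, 1, 1, 1, 8, 16, 25] :=
    RegB.left [] [4, 1, 1, 1, 1, 8, 16, 25] [] h8 (by simp)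
  exact RegB.left [] [57, 4, 1] [1, 1, 1, 8, 16, 25] h9 (by simp)

theorem has_regB {ks : List ℕ} {n k : ℕ} (hk : k ∈ ks) (hk1 : k ≠ 1) (h : Has RegB1 ks n) :
    Has RegB ks n := by
  obtain ⟨d, hd | hd, hn, l, hl, hs⟩ := h
  · exfalso
    subst hd
    have h1 : k ∈ ([1] : List ℕ) := hs.subset (hl.mem_iff.2 hk)
    simp at h1
    exact hk1 h1
  · exact ⟨d, hd, hn, l, hl, hs⟩

/-- **Disproof of Q1**: `b(62) = 8` and `b(57,62) = 10 = b(62) + 2`. -/
theorem result : IsLeast {n | Has RegB1 [62] n} 8 ∧ IsLeast {n | Has RegB1 [57, 62] n} 10 := by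
  refine ⟨⟨⟨_, Or.inr regB_single, rfl, [62], List.Perm.refl _, by decide⟩, ?_⟩,
    ⟨⟨_, Or.inr regB_pair, rfl, [62, 57], List.Perm.swap _ _ _, by decide⟩, ?_⟩⟩
  · intro n hn
    exact lower_singleB (m := 5) (by norm_num) (by norm_num)
      (has_regB (k := 62) (by simp) (by norm_num) hn)
  · intro n hn
    exact lowerB (m := 7) (by norm_num) (by decide +kernel)
      (has_regB (k := 62) (by simp) (by norm_num) hn)

end Pool.Agent.Results.MP_8dcfbf_co.PairNeedsTwoMore
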